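import Pool.Agent.Run7.h100.LC.B

/-! Piece B of the project of helper405 (MP_740c6d_ag): exchange polynomials, the sequence and the
two-sided bounds. -/

set_option autoImplicit false

namespace Run7.h100.LC

open Run7.h405 MvPolynomial

/-- exchange of the variables `1` and `2` -/
noncomputable def sw (P : MP) : MP := rename (Equiv.swap (1 : Fin 3) 2) P

theorem aeval_sw {S : Type*} [CommRing S] [Algebra ℚ S] (l u v : S) (P : MP) :
    aeval ![l, u, v] (sw P) = aeval ![l, v, u] P := by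
  rw [sw, aeval_rename]
  have : (![l, u, v] ∘ (Equiv.swap (1 : Fin 3) 2)) = ![l, v, u] := by
    funext i
    fin_cases i
    · simp [Equiv.swap_apply_of_ne_of_ne]
    · simp
    · simp
  rw [this]

theorem good_sw {α β : ℕ} (hα : 0 < α) (hβ : 0 < β) {P : MP} (h : Good α β P) :
    Good β α (sw P) := by
  classical
  have e1 : aeval ![(X 0 : MP), X 1, 0] (sw P) = (X 0 ^ β + X 1) ^ α := by
    rw [aeval_sw, e2' h]
  have e2 : aeval ![(X 0 : MP), 0, X 2] (sw P) = (X 0 ^ α + X 2) ^ β := by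
    rw [aeval_sw, e1' h]
  refine ⟨?_, e1, e2, c1_of hβ e1, c2_of hα e2, ?_⟩
  · intro s hs
    rw [sw, support_rename_of_injective (Equiv.injective _), Finset.mem_image] at hs
    obtain ⟨t, ht, rfl⟩ := hs
    have h0 : Finsupp.mapDomain (Equiv.swap (1 : Fin 3) 2) t 0 = t 0 := by
      have := Finsupp.mapDomain_apply (Equiv.swap (1 : Fin 3) 2).injective t 0
      rwa [Equiv.swap_apply_of_ne_of_ne (by decide) (by decide)] at this
    have h1 : Finsupp.mapDomain (Equiv.swap (1 : Fin 3) 2) t 1 = t 2 := by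
      have := Finsupp.mapDomain_apply (Equiv.swap (1 : Fin 3) 2).injective t 2
      rwa [Equiv.swap_apply_right] at this
    have h2 : Finsupp.mapDomain (Equiv.swap (1 : Fin 3) 2) t 2 = t 1 := by
      have := Finsupp.mapDomain_apply (Equiv.swap (1 : Fin 3) 2).injective t 1
      rwa [Equiv.swap_apply_left] at this
    rw [h0, h1, h2]
    have h3 := h.hom t ht
    rw [mul_comm β α]
    omega
  · intro l u v hl hu hv hne
    rw [aeval_sw]
    exact h.pos l v u hl hv hu (fun h' => hne ⟨h'.1, h'.2.2, h'.2.1⟩)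

theorem D_facts (n : ℕ) : 0 < D (n + 1) ∧ D (n + 1) ≤ D (n + 2) ∧ D (n + 2) ≤ D (n + 3) := by
  induction n with
  | zero => refine ⟨?_, ?_, ?_⟩ <;> decide
  | succ m ih =>
    obtain ⟨h1, h2, h3⟩ := ih
    refine ⟨lt_of_lt_of_le h1 h2, h3, ?_⟩
    have h4 : D (m + 1 + 3) = 4 * D (m + 1 + 1) * D (m + 1 + 2) - D (m + 1) := by
      rw [D]
    show D (m + 3) ≤ D (m + 1 + 3)
    rw [h4]
    have h8 : 1 ≤ D (m + 2) := lt_of_lt_of_le h1 h2
    have h5 : 4 * 1 * D (m + 3) ≤ 4 * D (m + 2) * D (m + 3) := by gcongr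
    have h6 : D (m + 1 + 1) = D (m + 2) := rfl
    have h7 : D (m + 1 + 2) = D (m + 3) := rfl
    rw [h6, h7]
    omega

theorem D_pos' (n : ℕ) : 0 < D n := by
  cases n with
  | zero => decide
  | succ m => exact (D_facts m).1

theorem D_rec' (n : ℕ) : D (n + 3) + D n = 4 * D (n + 1) * D (n + 2) := by
  cases n with
  | zero => decide
  | succ m =>
    obtain ⟨h1, h2, h3⟩ := D_facts m
    have h4 : D (m + 1 + 3) = 4 * D (m + 1 + 1) * D (m + 1 + 2) - D (m + 1) := by
      rw [D]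
    have h8 : 1 ≤ D (m + 2) := lt_of_lt_of_le h1 h2
    have h5 : 4 * 1 * D (m + 3) ≤ 4 * D (m + 2) * D (m + 3) := by gcongr
    have h6 : D (m + 1 + 1) = D (m + 2) := rfl
    have h7 : D (m + 1 + 2) = D (m + 3) := rfl
    rw [h4, h6, h7]
    omega

/-- one step of the recursion -/
theorem exists_step (n : ℕ) (P : MP) (h : Good (D (n + 1)) (D (n + 2)) P) :
    ∃ R : MP, Good (D (n + 4)) (D (n + 5)) R ∧
      ∀ (S : Type) [CommRing S] [Algebra ℚ S] (l u u' a v : S),
        u * u' = (l ^ D (n+2) + a) ^ (4 * D (n+3)) →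
        v * a = (l ^ D (n+4) + u) ^ (4 * D (n+3)) →
        (l ^ D (n+2) + a) ^ D (n+1) * (l ^ D (n+4) + u) ^ D (n+2) * aeval ![l, u, v] R =
          v ^ D (n+4) * u ^ D (n+2) * aeval ![l, u', a] P := by
  have p1 := D_pos' (n + 1)
  have p2 := D_pos' (n + 2)
  have p4 := D_pos' (n + 4)
  have p5 := D_pos' (n + 5)
  obtain ⟨f1, f2, f3⟩ := D_facts n
  obtain ⟨Q, hQ, kQ⟩ := mutate (κ := 4 * D (n + 3)) (δ := D (n + 4)) p1 p2 (by omega) p4
    (by have := D_rec' (n + 1)
        calc D (n + 4) + D (n + 1) = 4 * D (n + 2) * D (n + 3) := this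
          _ = D (n + 2) * (4 * D (n + 3)) := by ring) h
  have hQ' := good_sw p4 p2 hQ
  obtain ⟨R, hR, kR⟩ := mutate (κ := 4 * D (n + 3)) (δ := D (n + 5)) p2 p4 (by omega) p5
    (by have := D_rec' (n + 2)
        calc D (n + 5) + D (n + 2) = 4 * D (n + 3) * D (n + 4) := this
          _ = D (n + 4) * (4 * D (n + 3)) := by ring) hQ'
  refine ⟨sw R, good_sw p5 p4 hR, ?_⟩
  intro S _ _ l u u' a v h1 h2
  have k1 := kQ S l u u' a h1
  have k2 := kR S l v a u h2
  rw [aeval_sw] at k2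
  rw [aeval_sw]
  calc (l ^ D (n+2) + a) ^ D (n+1) * (l ^ D (n+4) + u) ^ D (n+2) * aeval ![l, v, u] R =
      (l ^ D (n+2) + a) ^ D (n+1) * ((l ^ D (n+4) + u) ^ D (n+2) * aeval ![l, v, u] R) := by ring
    _ = v ^ D (n+4) * ((l ^ D (n+2) + a) ^ D (n+1) * aeval ![l, u, a] Q) := by rw [k2]; ring
    _ = _ := by rw [k1]; ring

open Classical in
/-- the step as a function -/
noncomputable def stp (n : ℕ) (P : MP) : MP :=
  if h : Good (D (n + 1)) (D (n + 2)) P then (exists_step n P h).choose else 0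

/-- the sequence -/
noncomputable def PP : ℕ → MP
  | 0 => X 0 + X 1 + X 2
  | 1 => X 0 + X 1 + X 2
  | 2 => (X 0 + X 1) ^ 3 + X 2
  | (n + 3) => stp n (PP n)

theorem good_PP : ∀ n, Good (D (n + 1)) (D (n + 2)) (PP n)
  | 0 => good11
  | 1 => by
    rw [PP]
    exact good11
  | 2 => by
    rw [PP]
    exact good13
  | (n + 3) => by
    have h := good_PP n
    rw [PP, stp, dif_pos h]
    exact (exists_step n (PP n) h).choose_spec.1

theorem exists_P : ∃ P : ℕ → MP, PSys P := by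
  refine ⟨PP, ?_, ?_, ?_, good_PP, ?_⟩
  · rw [PP]
  · rw [PP]
  · rw [PP]
  · intro n S _ _ l u u' a v h1 h2
    have h := good_PP n
    have h3 : PP (n + 3) = (exists_step n (PP n) h).choose := by
      rw [PP, stp, dif_pos h]
    rw [h3]
    exact (exists_step n (PP n) h).choose_spec.2 S l u u' a v h1 h2

/-- homogeneity of the values -/
theorem hom_val {α β : ℕ} {P : MP} (h : Good α β P) (t l u v : ℝ) :
    aeval ![t * l, t ^ α * u, t ^ β * v] P = t ^ (α * β) * aeval ![l, u, v] P := by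
  rw [aeval_sum3, aeval_sum3, Finset.mul_sum]
  refine Finset.sum_congr rfl fun s hs => ?_
  rw [← h.hom s hs, mul_pow, mul_pow, mul_pow, pow_add, pow_add, pow_mul, pow_mul]
  ring

theorem cont_val (P : MP) : Continuous fun p : ℝ × ℝ × ℝ => aeval ![p.1, p.2.1, p.2.2] P := by
  have h : (fun p : ℝ × ℝ × ℝ => aeval ![p.1, p.2.1, p.2.2] P) = fun p : ℝ × ℝ × ℝ =>
      ∑ s ∈ P.support, algebraMap ℚ ℝ (P.coeff s) * (p.1 ^ s 0 * p.2.1 ^ s 1 * p.2.2 ^ s 2) := by
    funext p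
    rw [aeval_sum3]
  rw [h]
  fun_prop

theorem bounds {α β : ℕ} {P : MP} (hα : 0 < α) (hβ : 0 < β) (h : Good α β P) :
    ∃ c C : ℝ, 0 < c ∧ 0 < C ∧ ∀ l u v : ℝ, 0 ≤ l → 0 ≤ u → 0 ≤ v →
      c * max (max (u ^ β) (v ^ α)) (l ^ (α * β)) ≤ aeval ![l, u, v] P ∧
      aeval ![l, u, v] P ≤ C * max (max (u ^ β) (v ^ α)) (l ^ (α * β)) := by
  set m : ℝ × ℝ × ℝ → ℝ := fun p => max (max (p.2.1 ^ β) (p.2.2 ^ α)) (p.1 ^ (α * β)) with hm
  have hmc : Continuous m := by
    rw [hm]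
    fun_prop
  set K : Set (ℝ × ℝ × ℝ) := (Set.Icc 0 1 ×ˢ (Set.Icc 0 1 ×ˢ Set.Icc 0 1)) ∩ {p | m p = 1} with hK
  have hKc : IsCompact K := by
    apply IsCompact.inter_right
    · exact isCompact_Icc.prod (isCompact_Icc.prod isCompact_Icc)
    · exact isClosed_eq hmc continuous_const
  have hKn : K.Nonempty := by
    refine ⟨(1, 0, 0), ?_, ?_⟩
    · refine ⟨⟨zero_le_one, le_rfl⟩, ⟨le_rfl, zero_le_one⟩, ⟨le_rfl, zero_le_one⟩⟩
    · show max (max ((0 : ℝ) ^ β) (0 ^ α)) (1 ^ (α * β)) = 1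
      rw [zero_pow hβ.ne', zero_pow hα.ne', one_pow, max_self]
      exact max_eq_right zero_le_one
  have hc := cont_val P
  obtain ⟨p1, hp1, hmin⟩ := hKc.exists_isMinOn hKn hc.continuousOn
  obtain ⟨p2, hp2, hmax⟩ := hKc.exists_isMaxOn hKn hc.continuousOn
  have hpos : ∀ p ∈ K, 0 < aeval ![p.1, p.2.1, p.2.2] P := by
    intro p hp
    apply h.pos _ _ _ hp.1.1.1 hp.1.2.1.1 hp.1.2.2.1
    rintro ⟨h0, h1, h2⟩
    have h3 : m p = 1 := hp.2
    rw [hm] at h3
    simp only [h0, h1, h2, zero_pow hβ.ne', zero_pow hα.ne',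
      zero_pow (Nat.mul_pos hα hβ).ne', max_self] at h3
    exact zero_ne_one h3
  refine ⟨_, _, hpos p1 hp1, hpos p2 hp2, ?_⟩
  intro l u v hl hu hv
  set M : ℝ := max (max (u ^ β) (v ^ α)) (l ^ (α * β)) with hM
  have hM0 : 0 ≤ M := le_max_of_le_right (by positivity)
  rcases hM0.eq_or_lt with h0 | h0
  · have hu0 : u = 0 := by
      have : u ^ β ≤ 0 := by rw [h0]; exact le_max_of_le_left (le_max_left _ _)
      exact pow_eq_zero_iff hβ.ne' |>.1 (le_antisymm this (by positivity))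
    have hv0 : v = 0 := by
      have : v ^ α ≤ 0 := by rw [h0]; exact le_max_of_le_left (le_max_right _ _)
      exact pow_eq_zero_iff hα.ne' |>.1 (le_antisymm this (by positivity))
    have hl0 : l = 0 := by
      have : l ^ (α * β) ≤ 0 := by rw [h0]; exact le_max_right _ _
      exact pow_eq_zero_iff (Nat.mul_pos hα hβ).ne' |>.1 (le_antisymm this (by positivity))
    have h1 : aeval ![l, u, v] P = 0 := by
      rw [hl0, hu0, hv0, e1' h, zero_pow hα.ne', add_zero, zero_pow hβ.ne']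
    rw [h1, ← h0, mul_zero, mul_zero]
    exact ⟨le_rfl, le_rfl⟩
  · set t : ℝ := M ^ ((1 : ℝ) / ((α * β : ℕ) : ℝ)) with ht
    have ht0 : 0 < t := Real.rpow_pos_of_pos h0 _
    have htM : t ^ (α * β) = M := by
      rw [ht, ← Real.rpow_natCast, ← Real.rpow_mul h0.le, one_div,
        inv_mul_cancel₀ (by exact_mod_cast (Nat.mul_pos hα hβ).ne'), Real.rpow_one]
    have htβ : (t ^ α) ^ β = M := by rw [← pow_mul, htM]
    have htα : (t ^ β) ^ α = M := by rw [← pow_mul, mul_comm, htM]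
    have hv1 : aeval ![l, u, v] P = M * aeval ![l / t, u / t ^ α, v / t ^ β] P := by
      rw [← htM, ← hom_val h, mul_div_cancel₀ _ ht0.ne', mul_div_cancel₀ _ (pow_pos ht0 _).ne',
        mul_div_cancel₀ _ (pow_pos ht0 _).ne']
    have hu2 : (u / t ^ α) ^ β = u ^ β / M := by rw [div_pow, htβ]
    have hv2 : (v / t ^ β) ^ α = v ^ α / M := by rw [div_pow, htα]
    have hl2 : (l / t) ^ (α * β) = l ^ (α * β) / M := by rw [div_pow, htM]
    have hu3 : u ^ β / M ≤ 1 := (div_le_one h0).2 (le_max_of_le_left (le_max_left _ _))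
    have hv3 : v ^ α / M ≤ 1 := (div_le_one h0).2 (le_max_of_le_left (le_max_right _ _))
    have hl3 : l ^ (α * β) / M ≤ 1 := (div_le_one h0).2 (le_max_right _ _)
    have hp : ((l / t, u / t ^ α, v / t ^ β) : ℝ × ℝ × ℝ) ∈ K := by
      refine ⟨⟨⟨by positivity, ?_⟩, ⟨by positivity, ?_⟩, ⟨by positivity, ?_⟩⟩, ?_⟩
      · rw [← hl2] at hl3
        exact (pow_le_one_iff_of_nonneg (by positivity) (Nat.mul_pos hα hβ).ne').1 hl3
      · rw [← hu2] at hu3
        exact (pow_le_one_iff_of_nonneg (by positivity) hβ.ne').1 hu3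
      · rw [← hv2] at hv3
        exact (pow_le_one_iff_of_nonneg (by positivity) hα.ne').1 hv3
      · show max (max ((u / t ^ α) ^ β) ((v / t ^ β) ^ α)) ((l / t) ^ (α * β)) = 1
        rw [hu2, hv2, hl2, max_div_div_right h0.le, max_div_div_right h0.le]
        exact div_self h0.ne'
    have hmin' := hmin hp
    have hmax' := hmax hp
    simp only [Set.mem_setOf_eq] at hmin' hmax'
    rw [hv1, mul_comm M]
    constructor
    · exact mul_le_mul_of_nonneg_right hmin' h0.le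
    · exact mul_le_mul_of_nonneg_right hmax' h0.le

end Run7.h100.LC
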