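import Pool.Agent.Run7.h405.Base

/-! Piece B of the project of helper405 (MP_740c6d_ag): exchange polynomials. -/

set_option autoImplicit false

namespace Run7.h100.LC

open Run7.h405 MvPolynomial

theorem aeval_sum3 {S : Type*} [CommRing S] [Algebra ℚ S] (l u v : S) (P : MP) :
    aeval ![l, u, v] P =
      ∑ s ∈ P.support, algebraMap ℚ S (P.coeff s) * (l ^ s 0 * u ^ s 1 * v ^ s 2) := by
  rw [aeval_def, eval₂_eq']
  refine Finset.sum_congr rfl fun s _ => ?_
  rw [Fin.prod_univ_three]
  simp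

theorem comp_aeval3 {S T : Type*} [CommRing S] [Algebra ℚ S] [CommRing T] [Algebra ℚ T]
    (φ : S →ₐ[ℚ] T) (l u v : S) (P : MP) :
    φ (aeval ![l, u, v] P) = aeval ![φ l, φ u, φ v] P := by
  rw [aeval_sum3, aeval_sum3, map_sum]
  refine Finset.sum_congr rfl fun s _ => ?_
  simp [map_mul, map_pow]

/-- `e1` in every algebra -/
theorem e1' {α β : ℕ} {P : MP} (h : Good α β P) {S : Type*} [CommRing S] [Algebra ℚ S] (l u : S) :
    aeval ![l, u, 0] P = (l ^ α + u) ^ β := by
  have h1 := congrArg (aeval ![l, u, 0] : MP →ₐ[ℚ] S) h.e1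
  rw [comp_aeval3] at h1
  simpa using h1

/-- `e2` in every algebra -/
theorem e2' {α β : ℕ} {P : MP} (h : Good α β P) {S : Type*} [CommRing S] [Algebra ℚ S] (l v : S) :
    aeval ![l, 0, v] P = (l ^ β + v) ^ α := by
  have h1 := congrArg (aeval ![l, 0, v] : MP →ₐ[ℚ] S) h.e2
  rw [comp_aeval3] at h1
  simpa using h1

theorem coeff1 (P : MP) (n : ℕ) :
    (aeval ![(0 : MP), X 1, 0] P).coeff (Finsupp.single 1 n) = P.coeff (Finsupp.single 1 n) := by
  classical
  rw [aeval_sum3, coeff_sum]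
  have h1 : ∀ s ∈ P.support, coeff (Finsupp.single 1 n)
      (algebraMap ℚ MP (P.coeff s) * ((0 : MP) ^ s 0 * X 1 ^ s 1 * 0 ^ s 2)) =
      if s = Finsupp.single 1 n then P.coeff s else 0 := by
    intro s _
    by_cases h0 : s 0 = 0
    · by_cases h2 : s 2 = 0
      · rw [h0, h2, pow_zero, one_mul, mul_one, MvPolynomial.algebraMap_eq,
          coeff_C_mul, coeff_X_pow]
        by_cases hs : s = Finsupp.single 1 n
        · subst hs
          simp
        · rw [if_neg hs, if_neg, mul_zero]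
          intro h3
          apply hs
          ext i
          fin_cases i
          · simp [h0]
          · have := congrArg (fun f => f 1) h3
            simpa using this
          · simp [h2]
      · rw [if_neg, zero_pow h2, mul_zero, mul_zero, coeff_zero]
        intro hs
        apply h2
        rw [hs]
        simp
    · rw [if_neg, zero_pow h0, zero_mul, zero_mul, mul_zero, coeff_zero]
      intro hs
      apply h0
      rw [hs]
      simp
  rw [Finset.sum_congr rfl h1, Finset.sum_ite_eq']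
  split_ifs with h
  · rfl
  · exact (notMem_support_iff.1 h).symm

theorem coeff2 (P : MP) (n : ℕ) :
    (aeval ![(0 : MP), 0, X 2] P).coeff (Finsupp.single 2 n) = P.coeff (Finsupp.single 2 n) := by
  classical
  rw [aeval_sum3, coeff_sum]
  have h1 : ∀ s ∈ P.support, coeff (Finsupp.single 2 n)
      (algebraMap ℚ MP (P.coeff s) * ((0 : MP) ^ s 0 * 0 ^ s 1 * X 2 ^ s 2)) =
      if s = Finsupp.single 2 n then P.coeff s else 0 := by
    intro s _
    by_cases h0 : s 0 = 0
    · by_cases h2 : s 1 = 0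
      · rw [h0, h2, pow_zero, one_mul, one_mul, MvPolynomial.algebraMap_eq,
          coeff_C_mul, coeff_X_pow]
        by_cases hs : s = Finsupp.single 2 n
        · subst hs
          simp
        · rw [if_neg hs, if_neg, mul_zero]
          intro h3
          apply hs
          ext i
          fin_cases i
          · simp [h0]
          · simp [h2]
          · have := congrArg (fun f => f 2) h3
            simpa using this
      · rw [if_neg, zero_pow h2, mul_zero, zero_mul, mul_zero, coeff_zero]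
        intro hs
        apply h2
        rw [hs]
        simp
    · rw [if_neg, zero_pow h0, zero_mul, zero_mul, mul_zero, coeff_zero]
      intro hs
      apply h0
      rw [hs]
      simp
  rw [Finset.sum_congr rfl h1, Finset.sum_ite_eq']
  split_ifs with h
  · rfl
  · exact (notMem_support_iff.1 h).symm

/-- `c1` and `c2` follow from `e1` and `e2` -/
theorem c1_of {α β : ℕ} (hα : 0 < α) {P : MP}
    (e1 : aeval ![(X 0 : MP), X 1, 0] P = (X 0 ^ α + X 1) ^ β) :
    P.coeff (Finsupp.single 1 β) = 1 := by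
  have h1 := congrArg (aeval ![(0 : MP), X 1, 0] : MP →ₐ[ℚ] MP) e1
  rw [comp_aeval3] at h1
  simp only [aeval_X, Matrix.cons_val_zero, Matrix.cons_val_one, map_zero, map_pow, map_add] at h1
  rw [← coeff1, h1, zero_pow hα.ne', zero_add]
  simp [coeff_X_pow]

theorem c2_of {α β : ℕ} (hβ : 0 < β) {P : MP}
    (e2 : aeval ![(X 0 : MP), 0, X 2] P = (X 0 ^ β + X 2) ^ α) :
    P.coeff (Finsupp.single 2 α) = 1 := by
  have h1 := congrArg (aeval ![(0 : MP), 0, X 2] : MP →ₐ[ℚ] MP) e2
  rw [comp_aeval3] at h1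
  simp only [aeval_X, Matrix.cons_val_zero, map_zero, map_pow, map_add] at h1
  rw [← coeff2]
  have h2 : (aeval ![(0 : MP), 0, X 2] P : MP) = X 2 ^ α := by
    rw [zero_pow hβ.ne', zero_add] at h1
    simpa using h1
  rw [h2]
  simp [coeff_X_pow]

theorem hom_iff (α β N : ℕ) (P : MP) :
    (∀ s ∈ P.support, s 0 + α * s 1 + β * s 2 = N) ↔ IsWeightedHomogeneous ![1, α, β] P N := by
  have h : ∀ d : Fin 3 →₀ ℕ, Finsupp.weight (![1, α, β] : Fin 3 → ℕ) d =
      d 0 + α * d 1 + β * d 2 := by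
    intro d
    rw [Finsupp.weight_apply, Finsupp.sum_fintype _ _ (by simp), Fin.sum_univ_three]
    simp [mul_comm]
  constructor
  · intro h1 d hd
    rw [h]
    exact h1 d (mem_support_iff.2 hd)
  · intro h1 s hs
    rw [← h]
    exact h1 (mem_support_iff.1 hs)

/-- the base polynomials -/
theorem good11 : Good 1 1 (X 0 + X 1 + X 2) := by
  have e1 : aeval ![(X 0 : MP), X 1, 0] (X 0 + X 1 + X 2 : MP) = (X 0 ^ 1 + X 1) ^ 1 := by simp
  have e2 : aeval ![(X 0 : MP), 0, X 2] (X 0 + X 1 + X 2 : MP) = (X 0 ^ 1 + X 2) ^ 1 := by simp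
  refine ⟨?_, e1, e2, c1_of one_pos e1, c2_of one_pos e2, ?_⟩
  · rw [hom_iff]
    refine ((isWeightedHomogeneous_X ℚ _ 0).add (isWeightedHomogeneous_X ℚ _ 1)).add
      (isWeightedHomogeneous_X ℚ _ 2)
  · intro l u v hl hu hv h
    have h1 : aeval ![l, u, v] (X 0 + X 1 + X 2 : MP) = l + u + v := by simp
    rw [h1]
    by_contra h2
    apply h
    refine ⟨?_, ?_, ?_⟩ <;> linarith

theorem good13 : Good 1 3 ((X 0 + X 1) ^ 3 + X 2) := by
  have e1 : aeval ![(X 0 : MP), X 1, 0] ((X 0 + X 1) ^ 3 + X 2 : MP) = (X 0 ^ 1 + X 1) ^ 3 := by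
    simp
  have e2 : aeval ![(X 0 : MP), 0, X 2] ((X 0 + X 1) ^ 3 + X 2 : MP) = (X 0 ^ 3 + X 2) ^ 1 := by
    simp
  refine ⟨?_, e1, e2, c1_of one_pos e1, c2_of (by norm_num) e2, ?_⟩
  · rw [hom_iff]
    refine IsWeightedHomogeneous.add ?_ (isWeightedHomogeneous_X ℚ _ 2)
    exact ((isWeightedHomogeneous_X ℚ _ 0).add (isWeightedHomogeneous_X ℚ _ 1)).pow 3
  · intro l u v hl hu hv h
    have h1 : aeval ![l, u, v] ((X 0 + X 1) ^ 3 + X 2 : MP) = (l + u) ^ 3 + v := by simp
    rw [h1]
    rcases hv.eq_or_lt with hv0 | hv0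
    · have h2 : 0 < l + u := by
        by_contra h2
        apply h
        refine ⟨?_, ?_, ?_⟩ <;> linarith
      positivity
    · positivity

/-- THE MUTATION LEMMA -/
theorem mutate {α β κ δ : ℕ} (hα : 0 < α) (hβ : 0 < β) (hκ : α ≤ κ) (hδ : 0 < δ)
    (hd : δ + α = β * κ) {P : MP} (h : Good α β P) :
    ∃ Q : MP, Good δ β Q ∧ ∀ (S : Type) [CommRing S] [Algebra ℚ S] (l u u' a : S),
      u * u' = (l ^ β + a) ^ κ →
      (l ^ β + a) ^ α * aeval ![l, u, a] Q = u ^ β * aeval ![l, u', a] P := by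
  classical
  set E : MP := X 0 ^ β + X 2 with hE
  set T : Finset (Fin 3 →₀ ℕ) := P.support.filter (fun s => s 1 ≠ 0) with hT
  set Q : MP := X 1 ^ β + ∑ s ∈ T,
    C (P.coeff s) * (X 0 ^ s 0 * X 1 ^ (β - s 1) * E ^ (κ * s 1 - α) * X 2 ^ s 2) with hQ
  have hs1 : ∀ s ∈ P.support, s 1 ≤ β := by
    intro s hs
    have h1 := h.hom s hs
    have h2 : α * s 1 ≤ α * β := by omega
    exact Nat.le_of_mul_le_mul_left h2 hα
  have hsT : ∀ s ∈ T, s ∈ P.support ∧ s 1 ≠ 0 := fun s hs => Finset.mem_filter.1 hs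
  have hκs : ∀ s ∈ T, α ≤ κ * s 1 := by
    intro s hs
    have h1 : 1 ≤ s 1 := Nat.one_le_iff_ne_zero.2 (hsT s hs).2
    calc α ≤ κ * 1 := by rw [mul_one]; exact hκ
      _ ≤ κ * s 1 := Nat.mul_le_mul_left _ h1
  -- value of Q
  have hQv : ∀ (S : Type) [CommRing S] [Algebra ℚ S] (l u a : S),
      aeval ![l, u, a] Q = u ^ β + ∑ s ∈ T, algebraMap ℚ S (P.coeff s) *
        (l ^ s 0 * u ^ (β - s 1) * (l ^ β + a) ^ (κ * s 1 - α) * a ^ s 2) := by
    intro S _ _ l u a
    rw [hQ, map_add, map_sum, map_pow, aeval_X]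
    congr 1
    refine Finset.sum_congr rfl fun s _ => ?_
    simp [hE]
  -- the identity
  have key : ∀ (S : Type) [CommRing S] [Algebra ℚ S] (l u u' a : S),
      u * u' = (l ^ β + a) ^ κ →
      (l ^ β + a) ^ α * aeval ![l, u, a] Q = u ^ β * aeval ![l, u', a] P := by
    intro S _ _ l u u' a hu
    have h1 : ∑ s ∈ P.support.filter (fun s => ¬ s 1 ≠ 0), algebraMap ℚ S (P.coeff s) *
        (l ^ s 0 * u' ^ s 1 * a ^ s 2) = (l ^ β + a) ^ α := by
      rw [← e2' h l a, aeval_sum3, Finset.sum_filter]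
      refine Finset.sum_congr rfl fun s _ => ?_
      by_cases h0 : s 1 = 0
      · simp [h0]
      · simp [h0]
    have h2 : (l ^ β + a) ^ α * ∑ s ∈ T, algebraMap ℚ S (P.coeff s) *
        (l ^ s 0 * u ^ (β - s 1) * (l ^ β + a) ^ (κ * s 1 - α) * a ^ s 2) =
        u ^ β * ∑ s ∈ T, algebraMap ℚ S (P.coeff s) * (l ^ s 0 * u' ^ s 1 * a ^ s 2) := by
      rw [Finset.mul_sum, Finset.mul_sum]
      refine Finset.sum_congr rfl fun s hs => ?_
      have e1 : (l ^ β + a) ^ α * (l ^ β + a) ^ (κ * s 1 - α) = (u * u') ^ s 1 := by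
        rw [← pow_add, Nat.add_sub_cancel' (hκs s hs), hu, pow_mul]
      have e2 : u ^ β = u ^ (β - s 1) * u ^ s 1 := by
        rw [← pow_add, Nat.sub_add_cancel (hs1 s (hsT s hs).1)]
      calc (l ^ β + a) ^ α * (algebraMap ℚ S (coeff s P) *
            (l ^ s 0 * u ^ (β - s 1) * (l ^ β + a) ^ (κ * s 1 - α) * a ^ s 2)) =
          algebraMap ℚ S (coeff s P) * l ^ s 0 * u ^ (β - s 1) * a ^ s 2 *
            ((l ^ β + a) ^ α * (l ^ β + a) ^ (κ * s 1 - α)) := by ring
        _ = _ := by rw [e1, e2, mul_pow]; ring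
    rw [hQv, aeval_sum3, ← Finset.sum_filter_add_sum_filter_not P.support (fun s => s 1 ≠ 0),
      mul_add, mul_add, h1, h2, hT]
    ring
  -- e2 for Q
  have he2 : ∀ (S : Type) [CommRing S] [Algebra ℚ S] (l a : S),
      aeval ![l, 0, a] Q = (l ^ β + a) ^ δ := by
    intro S _ _ l a
    rw [hQv, zero_pow hβ.ne', zero_add, Finset.sum_eq_single (Finsupp.single 1 β)]
    · rw [h.c1]
      have : κ * β - α = δ := by rw [mul_comm, ← hd]; omega
      simp [this]
    · intro s hs hne
      have h1 : s 1 ≠ β := by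
        intro h1
        apply hne
        have h2 := h.hom s (hsT s hs).1
        rw [h1] at h2
        have h3 : s 0 = 0 := by omega
        have h4 : β * s 2 = 0 := by omega
        have h5 : s 2 = 0 := by
          rcases Nat.mul_eq_zero.1 h4 with h6 | h6
          · omega
          · exact h6
        ext i
        fin_cases i
        · simp [h3]
        · simp [h1]
        · simp [h5]
      have h2 : 0 < β - s 1 := Nat.sub_pos_of_lt (lt_of_le_of_ne (hs1 s (hsT s hs).1) h1)
      rw [zero_pow h2.ne']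
      simp
    · intro h1
      exfalso
      apply h1
      rw [hT, Finset.mem_filter, mem_support_iff, h.c1]
      simp [hβ.ne']
  -- e1 for Q
  have he1 : aeval ![(X 0 : MP), X 1, 0] Q = (X 0 ^ δ + X 1) ^ β := by
    apply IsFractionRing.injective MP (FractionRing MP)
    set j : MP →ₐ[ℚ] FractionRing MP := (IsScalarTower.toAlgHom ℚ MP (FractionRing MP)) with hj
    have hj' : ∀ x, algebraMap MP (FractionRing MP) x = j x := fun x => rfl
    have hL : algebraMap MP (FractionRing MP) (aeval ![(X 0 : MP), X 1, 0] Q) =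
        aeval ![j (X 0), j (X 1), 0] Q := by
      rw [hj', comp_aeval3, map_zero]
    have hR : algebraMap MP (FractionRing MP) ((X 0 ^ δ + X 1) ^ β) =
        (j (X 0) ^ δ + j (X 1)) ^ β := by
      rw [hj', map_pow, map_add, map_pow]
    rw [hL, hR]
    have hl0 : j (X 0) ≠ 0 := by
      rw [← hj']
      exact (map_ne_zero_iff _ (IsFractionRing.injective MP (FractionRing MP))).2
        (X_ne_zero (0 : Fin 3))
    have hu0 : j (X 1) ≠ 0 := by
      rw [← hj']
      exact (map_ne_zero_iff _ (IsFractionRing.injective MP (FractionRing MP))).2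
        (X_ne_zero (1 : Fin 3))
    set l := j (X 0)
    set u := j (X 1)
    have hk := key (FractionRing MP) l u (l ^ (β * κ) / u) 0 (by
      rw [add_zero, ← pow_mul, mul_div_cancel₀ _ hu0])
    rw [e1' h] at hk
    have h1 : u ^ β * (l ^ α + l ^ (β * κ) / u) ^ β = (l ^ α) ^ β * (l ^ δ + u) ^ β := by
      rw [← mul_pow, ← mul_pow]
      congr 1
      rw [← hd, pow_add]
      field_simp
      ring
    rw [h1, add_zero, ← pow_mul, ← pow_mul, mul_comm β α] at hk
    exact mul_left_cancel₀ (pow_ne_zero _ hl0) hk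
  have he1' : ∀ (S : Type) [CommRing S] [Algebra ℚ S] (l u : S),
      aeval ![l, u, 0] Q = (l ^ δ + u) ^ β := by
    intro S _ _ l u
    have h1 := congrArg (aeval ![l, u, 0] : MP →ₐ[ℚ] S) he1
    rw [comp_aeval3] at h1
    simpa using h1
  refine ⟨Q, ⟨?_, he1, he2 MP (X 0) (X 2), c1_of hδ he1, c2_of hβ (he2 MP (X 0) (X 2)), ?_⟩, key⟩
  · rw [hom_iff]
    have w0 : IsWeightedHomogeneous ![1, δ, β] (X 0 : MP) 1 := isWeightedHomogeneous_X ℚ _ 0
    have w1 : IsWeightedHomogeneous ![1, δ, β] (X 1 : MP) δ := isWeightedHomogeneous_X ℚ _ 1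
    have w2 : IsWeightedHomogeneous ![1, δ, β] (X 2 : MP) β := isWeightedHomogeneous_X ℚ _ 2
    have wE : IsWeightedHomogeneous ![1, δ, β] E β := by
      have h1 := w0.pow β
      rw [smul_eq_mul, mul_one] at h1
      exact h1.add w2
    rw [hQ]
    refine IsWeightedHomogeneous.add ?_ (IsWeightedHomogeneous.sum _ _ _ fun s hs => ?_)
    · have h1 := w1.pow β
      rw [smul_eq_mul, mul_comm] at h1
      exact h1
    · have h1 := (isWeightedHomogeneous_C (![1, δ, β] : Fin 3 → ℕ) (P.coeff s)).mul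
        ((((w0.pow (s 0)).mul (w1.pow (β - s 1))).mul (wE.pow (κ * s 1 - α))).mul (w2.pow (s 2)))
      have h2 := h.hom s (hsT s hs).1
      have h3 := hs1 s (hsT s hs).1
      have h4 := hκs s hs
      convert h1 using 1
      simp only [smul_eq_mul, zero_add, mul_one]
      zify [h3, h4]
      zify at h2 hd
      have hd' : (δ : ℤ) = β * κ - α := by linarith
      rw [hd']
      linear_combination -h2
  · intro l u a hl hu ha hne
    rcases hu.eq_or_lt with hu0 | hu0
    · rw [← hu0, he2 ℝ]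
      have h1 : 0 < l ^ β + a := by
        rcases hl.eq_or_lt with hl0 | hl0
        · have ha0 : a ≠ 0 := fun ha0 => hne ⟨hl0.symm, hu0.symm, ha0⟩
          have : 0 < a := lt_of_le_of_ne ha ha0.symm
          positivity
        · positivity
      positivity
    · by_cases h0 : l = 0 ∧ a = 0
      · rw [h0.2, he1' ℝ, h0.1]
        positivity
      · have hE0 : 0 < l ^ β + a := by
          rcases hl.eq_or_lt with hl0 | hl0
          · have ha0 : a ≠ 0 := fun ha0 => h0 ⟨hl0.symm, ha0⟩
            have : 0 < a := lt_of_le_of_ne ha ha0.symm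
            positivity
          · positivity
        have hk := key ℝ l u ((l ^ β + a) ^ κ / u) a (mul_div_cancel₀ _ hu0.ne')
        have hp := h.pos l ((l ^ β + a) ^ κ / u) a hl (by positivity) ha
          (fun hh => h0 ⟨hh.1, hh.2.2⟩)
        have h1 : 0 < (l ^ β + a) ^ α * aeval ![l, u, a] Q := by
          rw [hk]
          positivity
        exact (mul_pos_iff_of_pos_left (by positivity)).1 h1
end Run7.h100.LC
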